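import Pool.Agent.Q182.DeAbF

/-!
# Graphs of groups with virtually abelian edge groups of any rank

`C` is any class of groups which contains the metabelian groups and has the closure properties
`ClosedA C`: the usual closure properties `ClosedE C` and closure under acylindrical actions on
trees. All of this is known for the class of the groups which satisfy the K-theoretic and
L-theoretic Farrell–Jones conjectures with additive category coefficients and finite wreath products
(solvable groups: Wegner, acylindrical actions: Knopf), and this class contains `GL_n(ℚ)` (Rüping).

Let `G` act without inversions on a tree with vertex stabilizers `G_v` in `C`, let the stabilizers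
of two edges with a common vertex be commensurable or have a finite intersection, and suppose that
the elements of infinite order of the infinite edge stabilizers are detected at the vertices of the
edge (`DetE G v w`): if `E` is the stabilizer of an edge at `v` and `z ∈ E` has infinite order, then
no power of `z` is in the commutator subgroup of the group `KV E v` of those elements of `G_v` which
commute with a subgroup of finite index of `E`; or (`LinDet z v`) `G_v` has a finite-dimensional
representation over a field for which no power of `z` is unipotent, or for which the characteristic
of the field is positive and the image of `z` has infinite order.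

1. If each infinite edge stabilizer `E` has a torsion-free abelian subgroup of finite index, of any
rank, and the group of transformations of `E ⊗ ℚ` induced by the commensurator of `E` in `G_v` is in
`C`, then `G` is in `C`.

2. If `C` contains the groups `GL_n(ℚ)` and each infinite edge stabilizer has a subgroup of finite
index which embeds in some `ℚ^n`, then `G` is in `C`.

3. In 2 no detection has to be assumed if the groups `G_v` are linear over fields of positive
characteristic, which may depend on `v`.

There are no other conditions on the vertex groups, on the graph of groups, or on the ways in which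
the edge groups are embedded: the commensurator of an edge group `E` in `G` may act on `E ⊗ ℚ` by any
group of linear transformations. The actions are in general not acylindrical, and the edge groups
need not be of finite index in their commensurators in the vertex groups.

Outline of the proof. By the tree of cylinders it suffices to treat the commensurator `M` of an edge
stabilizer; it acts on a subtree in which all edge stabilizers are commensurable to a torsion-free
abelian group `H`. Let `N` be the normal subgroup of `M` generated by the elements of the vertex
stabilizers which commute with a subgroup of finite index of `H`. The detection gives homomorphisms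
from the vertex stabilizers of `N` to a vector space over `ℚ` whose restrictions to `H` are
compatible and injective, and from them one gets for the preimage of each cyclic subgroup of `M / N`
a homomorphism to a metabelian group with finite kernels on the edge stabilizers. The quotient
`M / N` acts on the quotient tree with finite edge stabilizers, and its vertex stabilizers are the
groups of the transformations of `H ⊗ ℚ` induced by commensurators in the groups `G_v`.
-/

set_option autoImplicit false

namespace Pool.Agent.Results.MP_b6f35e_al.AbelianEdgeDetection

open Q182.Cyl (ClosedA Est InfOrd)
open Q182.Hv (KK)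
open Q182.De (KV DetE LinDet)
open Subgroup (Commensurable)
open Subgroup.Commensurable (commensurator)

/-- Let `C` be a class of groups with the closure properties `ClosedA C` which contains all
metabelian groups. Let `G` be a group acting without inversions on a tree with all vertex
stabilizers in `C`, such that the stabilizers of two edges with a common vertex are commensurable or
have a finite intersection. -/
theorem result (C : ∀ (G : Type) [Group G], Prop) (hC : ClosedA C)
    (hmet : ∀ (G : Type) [Group G], derivedSeries G 2 = ⊥ → C G)
    (G V : Type) [Group G] [MulAction G V] (T : SimpleGraph V) (hT : T.IsTree)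
    (hadj : ∀ (g : G) (v w : V), T.Adj v w → T.Adj (g • v) (g • w))
    (hinv : ∀ (g : G) (v w : V), T.Adj v w → ¬ (g • v = w ∧ g • w = v))
    (hst : ∀ v : V, C (MulAction.stabilizer G v))
    (hloc : ∀ v w w' : V, T.Adj v w → T.Adj v w' → Commensurable (Est G v w) (Est G v w') ∨
      Finite ↥(Est G v w ⊓ Est G v w')) :
    ((∀ v w : V, T.Adj v w → Infinite (Est G v w) → DetE G v w) →
      (∀ v w : V, T.Adj v w → Infinite (Est G v w) →
        (∃ H : Subgroup G, H ≤ Est G v w ∧ H.relIndex (Est G v w) ≠ 0 ∧
          (∀ a ∈ H, ∀ b ∈ H, a * b = b * a) ∧ ∀ a ∈ H, a ≠ 1 → InfOrd a) ∧
        ∃ (Q : Type) (_ : Group Q)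
          (ρ : ↥(MulAction.stabilizer G v ⊓ commensurator (Est G v w)) →* Q),
          C Q ∧ ∀ g, ρ g = 1 ↔ (g : G) ∈ KK (Est G v w)) → C G) ∧
    ((∀ n : ℕ, C (Matrix.GeneralLinearGroup (Fin n) ℚ)) →
      (∀ v w : V, T.Adj v w → Infinite (Est G v w) →
        ∃ (n : ℕ) (H : Subgroup G) (f : H →* Multiplicative (Fin n → ℚ)), H ≤ Est G v w ∧
          H.relIndex (Est G v w) ≠ 0 ∧ Function.Injective f) →
      ((∀ v w : V, T.Adj v w → Infinite (Est G v w) → DetE G v w) ∨
        ∀ v : V, ∃ (F : Type) (_ : Field F) (n : ℕ)
          (ρ : MulAction.stabilizer G v →* Matrix (Fin n) (Fin n) F),
          ringChar F ≠ 0 ∧ Function.Injective ρ) → C G) := by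
  refine ⟨fun h1 h2 => Q182.De.ab_fin hC hmet ⟨hT, hadj, hinv⟩ hloc hst h1
    (fun v w h h' => Or.inl (h2 v w h h')), ?_⟩
  intro hGL hab hdet
  refine Q182.De.ab_fin hC hmet ⟨hT, hadj, hinv⟩ hloc hst ?_
    (fun v w h h' => Or.inr ⟨hGL, hab v w h h'⟩)
  rcases hdet with h1 | h1
  · exact h1
  · intro v w _ _ z hz hinf
    right
    obtain ⟨F, iF, n, ρ, hp, hρ⟩ := h1 v
    have hzv : z • v = v := (Subgroup.mem_inf.1 hz).1
    refine ⟨hzv, F, iF, n, ρ, Or.inr ⟨hp, ?_⟩⟩
    intro k hk h2
    apply hinf k hk
    have h3 : ρ (⟨z, hzv⟩ ^ k) = ρ 1 := by rw [map_pow, h2, map_one]
    have h4 := hρ h3
    exact congrArg Subtype.val h4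

end Pool.Agent.Results.MP_b6f35e_al.AbelianEdgeDetection
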