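import Pool.Agent.Q27.LFA.Main

/-!
# Farrell–Jones groups: linear groups over locally finite algebras, with automorphisms

`ClosedE C` lists closure properties of the class of groups which satisfy the Farrell–Jones conjecture
with additive category coefficients and finite wreath products (subgroups, finite products, free
products, overgroups of finite index, directed colimits, the extension criterion). `D = C` is allowed.

Outline of the proof. Let `B` be a subalgebra in the tower which contains the entries of finitely many
matrices, `α` an automorphism of the algebra and `B'` a larger subalgebra in the tower which contains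
`B` and `α B`. As a left module over `B`, with `B` acting through the inclusion or through `α`, `B'`
is free, of the same rank by counting ranks over `R`. So there is an `R`-linear bijection `θ` of `B'`
with `θ (x y) = α x (θ y)` for `x` in `B`. In the group of invertible `R`-linear maps of `B' ^ n`, a
group `GL_m(R)`, the automorphism `α` of `GL_n(B)` becomes conjugation by `θ ^ n`, and the criterion
for extensions applies.
-/

set_option autoImplicit false

namespace Pool.Agent.Results.MP_b6f35e_al.LocallyFiniteAlgebras

open Matrix
open Q27.LFA (Tower Cov)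
open Pool.Agent.Y110.FJ (ClosedE)
open Q30.FJ (ClosedOver)

/-- Let `C` be a class of groups with the closure properties `ClosedE C`, and let the class `D` be
closed under subgroups and satisfy the extension principle over `C` (`D = C` is possible). In each of
the following cases `G` is in `D`, where `N` is a normal subgroup of `G` with `G ⧸ N` in `D` and `ρ`
is an injective homomorphism of `N` to the group of invertible `n × n` matrices over a ring `A`, such
that conjugation by each `g` in `G` acts on `N` as an automorphism `α` of the ring `A` of the kind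
given, followed by conjugation by an invertible matrix (both depend on `g`).

(1) `R` is a nontrivial commutative ring with all `GL_m(R)` in `C`; `A` is an `R`-algebra with a family
`T` of subalgebras so that each finite subset of `A` is in a member of `T`, members of `T` are
finitely generated free `R`-modules, and `B'` is a free left module of finite rank over `B` for
`B ≤ B'` in `T`; the automorphisms `α` of the `R`-algebra `A` map `T` to itself.

(2) `A` is the group ring of a locally finite group `Λ` over a nontrivial commutative ring `R` with
all `GL_m(R)` in `C`, and the automorphisms `α` are induced by automorphisms of `Λ`.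

(3) `A = K` is an algebraic extension of a field `F` with all `GL_m(F)` in `C`, the `α` are arbitrary
field automorphisms over `F`. -/
theorem result (C D : ∀ (G : Type) [Group G], Prop) (hC : ClosedE C) (hD : ClosedOver C D) :
    (∀ (R A : Type) [CommRing R] [Nontrivial R] [Ring A] [Algebra R A],
      (∀ m : ℕ, C (GL (Fin m) R)) → ∀ T : Set (Subalgebra R A), Tower T →
      ∀ (n : ℕ) (G : Type) [Group G] (N : Subgroup G) [N.Normal], D (G ⧸ N) →
      ∀ ρ : N →* (Matrix (Fin n) (Fin n) A)ˣ, Function.Injective ρ →
      (∀ g : G, ∃ (α : A ≃ₐ[R] A) (u : (Matrix (Fin n) (Fin n) A)ˣ),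
        (∀ B ∈ T, B.map (α : A →ₐ[R] A) ∈ T) ∧ Cov ρ g α.toRingEquiv u) → D G) ∧
    (∀ (R Λ : Type) [CommRing R] [Nontrivial R] [Group Λ], (∀ m : ℕ, C (GL (Fin m) R)) →
      (∀ s : Set Λ, s.Finite → Finite (Subgroup.closure s)) →
      ∀ (n : ℕ) (G : Type) [Group G] (N : Subgroup G) [N.Normal], D (G ⧸ N) →
      ∀ ρ : N →* (Matrix (Fin n) (Fin n) (MonoidAlgebra R Λ))ˣ, Function.Injective ρ →
      (∀ g : G, ∃ (e : Λ ≃* Λ) (u : (Matrix (Fin n) (Fin n) (MonoidAlgebra R Λ))ˣ),
        Cov ρ g (MonoidAlgebra.domCongr R R e).toRingEquiv u) → D G) ∧
    (∀ (F K : Type) [Field F] [Field K] [Algebra F K] [Algebra.IsAlgebraic F K],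
      (∀ m : ℕ, C (GL (Fin m) F)) →
      ∀ (n : ℕ) (G : Type) [Group G] (N : Subgroup G) [N.Normal], D (G ⧸ N) →
      ∀ ρ : N →* (Matrix (Fin n) (Fin n) K)ˣ, Function.Injective ρ →
      (∀ g : G, ∃ (α : K ≃ₐ[F] K) (u : (Matrix (Fin n) (Fin n) K)ˣ),
        Cov ρ g α.toRingEquiv u) → D G) :=
  ⟨fun _ _ _ _ _ _ hR T hT n G _ N _ hQ ρ hρ h => Q27.LFA.main hC hD hR T hT n G N hQ ρ hρ h,
    fun _ _ _ _ _ hR hΛ n G _ N _ hQ ρ hρ h => Q27.LFA.main_grp hC hD hR hΛ n G N hQ ρ hρ h,
    fun _ _ _ _ _ _ hF n G _ N _ hQ ρ hρ h => Q27.LFA.main_fld hC hD hF n G N hQ ρ hρ h⟩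

end Pool.Agent.Results.MP_b6f35e_al.LocallyFiniteAlgebras
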