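import Pool.Agent.Q175.LG.Fm

/-!
# Quadratic forms and automorphisms of hyperbolic forms in a window above `3 / √2`

`R` is any ring with involution and `G` any group. If the support of a quadratic form over `RG`, or of
an automorphism of a hyperbolic quadratic form over `RG`, is controlled by an integral matrix `A` whose
norm on `ℓ²(G)^N` is at most `3 / √2` plus a number which is exponentially small in `N`, or in the
inverse of the square root of the spectral gap of `A`, then the form is, after a change of basis by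
group elements and up to a boundary `χ - ε χ^*`, an orthogonal sum of forms over the group rings of
virtually cyclic subgroups, and the automorphism is a product of such automorphisms.
-/

set_option autoImplicit false

namespace Pool.Agent.Results.MP_b6f35e_al.SupportWindow

open Matrix TH57.Thr TH6.PF TH6.LF
open Pool.Agent.Q181.LG (Gapped)
open Pool.Agent.Q175.LG (Controls forms_core odd_core stab_win)

/-- The norm of the square matrix `A` is at most `3 / √2` plus a number which is exponentially small in
the size of `A` or in the inverse of the square root of its spectral gap. -/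
def Window {G κ : Type} [Group G] [Fintype κ] (A : Matrix κ κ (MonoidAlgebra ℤ G)) : Prop :=
  NormLE A (3 / Real.sqrt 2 + (1 / 2) ^ (2 * Fintype.card κ + 30)) ∨
    ∃ K : ℕ, Gapped A ((K : ℝ) ^ 2) ∧ NormLE A (3 / Real.sqrt 2 + (1 / 2) ^ (16 * K + 31))

/-- The subgroup `C` is virtually cyclic, and cyclic if `G` is torsion-free. -/
def Good {G : Type} [Group G] (C : Subgroup G) : Prop :=
  IsVC C ∧ ((∀ g : G, ∀ n : ℕ, 0 < n → g ^ n = 1 → g = 1) → IsCyclic C)

/-- After a diagonal change of basis by group elements and up to a boundary `χ - ε χ^*` the quadratic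
form `ψ` is an orthogonal sum of forms `θ a` over the group rings of good subgroups `C a`, which are
nonsingular if `ψ` is nonsingular. -/
def Splits {R G κ : Type} [Ring R] [StarRing R] [Group G] [Fintype κ] [DecidableEq κ]
    (w : G →* ℤˣ) (ε : ℤ) (ψ : Matrix κ κ (MonoidAlgebra R G)) : Prop :=
  ∃ (ρ : κ → κ) (u : κ → G) (C : κ → Subgroup G)
    (θ : ∀ a, Matrix {i // ρ i = a} {i // ρ i = a} (MonoidAlgebra R (C a)))
    (χ : Matrix κ κ (MonoidAlgebra R G)),
    (∀ a, Good (C a)) ∧
    (dmU R u).val * ψ * sadj w (dmU R u).val = blockSum ρ ρ C θ + (χ - ε • sadj w χ) ∧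
    (IsUnit (ψ + ε • sadj w ψ) →
      ∀ a, IsUnit (θ a + ε • sadj (w.comp (C a).subtype) (θ a)))

/-- The group generated by the automorphisms of the hyperbolic form over the group rings of the good
subgroups. -/
noncomputable def GoodIso (R G κ : Type) [Ring R] [StarRing R] [Group G] [Fintype κ] [DecidableEq κ] (ε : ℤ) :
    Subgroup (Matrix (κ ⊕ κ) (κ ⊕ κ) (MonoidAlgebra R G))ˣ :=
  Subgroup.closure {x | ∃ (C : Subgroup G) (y : (Matrix (κ ⊕ κ) (κ ⊕ κ) (MonoidAlgebra R C))ˣ),
    Good C ∧ QIso ε y.val ∧ x.val = y.val.map (MonoidAlgebra.mapDomain C.subtype)}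

theorem good_of_vc {G : Type} [Group G] (C : Subgroup G) (h : IsVC C) : Good C := by
  refine ⟨h, fun htf => ?_⟩
  obtain ⟨t, ht⟩ := h
  exact isCyclic_of_finiteIndex (S := C) (fun g n hn h => Subtype.ext
    (htf g.1 n hn (by simpa using congrArg Subtype.val h))) (Subgroup.zpowers t) inferInstance ht

theorem win_of {G κ : Type} [Group G] [Fintype κ] [DecidableEq κ]
    (A : Matrix κ κ (MonoidAlgebra ℤ G)) (h : Window A) : Pool.Agent.Q181.LG.Win A := by
  rcases h with h | h
  · left
    rwa [min_self]
  · exact Or.inr h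

/-- Let `R` be a ring with involution, `G` a group and `ε = 1` or `-1`.

(1) Let `w` be an orientation character and `ψ` an `ε`-quadratic form over `RG` (a square matrix),
controlled by an integral matrix `A` in the window: the support of `A` is symmetric and contains the
support of `ψ + ε ψ^*` and the elements of order two in the diagonal entries of `ψ`. Then `ψ` splits.

(2) For example, `A` can be the support pattern of `ψ` plus its adjoint, or, if `G` has no elements of
order two, any integral matrix with the same support as `ψ + ε ψ^*`.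

(3) Let `α` be an automorphism of a hyperbolic `ε`-quadratic form over `RG`, and suppose that an
integral matrix with the same support is in the window. Then `α` is in `GoodIso`. -/
theorem result (R : Type) [Ring R] [StarRing R] (G : Type) [Group G] (ε : ℤ)
    (hε : ε = 1 ∨ ε = -1) :
    (∀ (w : G →* ℤˣ) (n : ℕ) (ψ : Matrix (Fin n) (Fin n) (MonoidAlgebra R G))
      (A : Matrix (Fin n) (Fin n) (MonoidAlgebra ℤ G)),
      Controls w ε A ψ → Window A → Splits w ε ψ) ∧
    (∀ (w : G →* ℤˣ) (n : ℕ) (ψ : Matrix (Fin n) (Fin n) (MonoidAlgebra R G)),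
      Controls w ε (symPat ψ) ψ ∧
      ((∀ g : G, orderOf g ≠ 2) → ∀ A : Matrix (Fin n) (Fin n) (MonoidAlgebra ℤ G),
        (∀ i j g, (A i j).coeff g ≠ 0 ↔ ((ψ + ε • sadj w ψ) i j).coeff g ≠ 0) →
        Controls w ε A ψ)) ∧
    (∀ (n : ℕ) (α : (Matrix (Fin n ⊕ Fin n) (Fin n ⊕ Fin n) (MonoidAlgebra R G))ˣ)
      (A : Matrix (Fin n ⊕ Fin n) (Fin n ⊕ Fin n) (MonoidAlgebra ℤ G)),
      QIso ε α.val → (∀ i j g, (A i j).coeff g ≠ 0 ↔ (α.val i j).coeff g ≠ 0) → Window A →
      α ∈ GoodIso R G (Fin n) ε) := by
  classical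
  have hε2 : ε * ε = 1 := by rcases hε with rfl | rfl <;> norm_num
  refine ⟨fun w n ψ A hA hw => ?_, fun w n ψ => ⟨⟨?_, ?_, ?_⟩, fun h2 A hAs => ⟨?_, ?_, ?_⟩⟩,
    fun n α A hα hs hw => ?_⟩
  · obtain ⟨ρ, u, C, θ, χ, hC, h1, h2⟩ := forms_core w ε ψ A hA (stab_win A (win_of A hw))
    exact ⟨ρ, u, C, θ, χ, fun a => good_of_vc _ (hC a), h1, h2⟩
  · intro i j h hne
    rw [coeff_symPat, inv_inv, add_comm]
    rwa [coeff_symPat] at hne
  · intro i j g hg
    have hnn : ∀ r : R, 0 ≤ ind r := by
      intro r
      by_cases h : r = 0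
      · rw [h, ind_zero]
      · rw [ind_of_ne h]; norm_num
    rw [Matrix.add_apply, MonoidAlgebra.coeff_add, Finsupp.add_apply, Matrix.smul_apply,
      MonoidAlgebra.coeff_smul, Finsupp.smul_apply, sadj_apply, coeff_sbar] at hg
    rw [coeff_symPat]
    by_cases h1 : (ψ i j).coeff g = 0
    · have h2 : (ψ j i).coeff g⁻¹ ≠ 0 := by
        intro h3
        rw [h1, h3, star_zero, smul_zero, smul_zero, add_zero] at hg
        exact hg rfl
      rw [ind_of_ne h2]
      have := hnn ((ψ i j).coeff g)
      omega
    · rw [ind_of_ne h1]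
      have := hnn ((ψ j i).coeff g⁻¹)
      omega
  · intro i g _ hg
    have hnn : ∀ r : R, 0 ≤ ind r := by
      intro r
      by_cases h : r = 0
      · rw [h, ind_zero]
      · rw [ind_of_ne h]; norm_num
    rw [coeff_symPat, ind_of_ne hg]
    have := hnn ((ψ i i).coeff g⁻¹)
    omega
  · intro i j g hg
    rw [hAs] at hg ⊢
    intro h3
    apply hg
    have e1 : ψ + ε • sadj w ψ = ε • sadj w (ψ + ε • sadj w ψ) := by
      rw [sadj_add, sadj_zsmul, sadj_sadj, smul_add, smul_smul, hε2, one_smul, add_comm]
    rw [e1, Matrix.smul_apply, MonoidAlgebra.coeff_smul, Finsupp.smul_apply, sadj_apply,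
      coeff_sbar, h3, star_zero, smul_zero, smul_zero]
  · intro i j g hg
    exact (hAs i j g).2 hg
  · intro i g hg
    exact absurd hg (h2 g)
  · have h1 := odd_core ε hε2 α hα A hs (stab_win A (win_of A hw))
    refine (Subgroup.closure_mono ?_) h1
    rintro x ⟨C, y, hC, h3, h4⟩
    exact ⟨C, y, good_of_vc C hC, h3, h4⟩

end Pool.Agent.Results.MP_b6f35e_al.SupportWindow
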