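import Pool.Agent.Q9.FJG.Uni

/-!
# Trees whose edge stabilizers act by translations in rational representations of the vertex
# stabilizers

`C` is any class of groups with the closure properties `ClosedE C` which contains the groups
`GL_n(ℚ)`. All of this is known for the class of the groups that satisfy the K- and L-theoretic
Farrell–Jones conjecture with coefficients and finite wreath products.

Outline of the proof. Let `G` act on the tree `T`. By directed colimits `G` may be assumed to be
finitely generated, and acts on a subtree with finitely many orbits. Two faithful actions of an edge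
stabilizer by translations on `ℚ^n` are conjugate in `GL_n(ℚ)`. Hence the representations of the
vertex stabilizers at representatives of the orbits, made of the same degree by adding trivial
summands and transported by the elements of `G` (a cocycle with values in `GL_n(ℚ)`), agree up to
conjugation on the edge stabilizers; a potential on the tree glues them to a representation of `G` of
degree `n` that is faithful on the edge stabilizers, though in general not on the vertex stabilizers.
Now the theorem on edge-injective homomorphisms applies. For the condition (b) a homomorphism to a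
rational vector space of finite dimension gives the translations. For the condition (c) let `J` be
the augmentation ideal of the algebra spanned by the unitriangular representation `τ`, and let
`τ z - 1` be in `J ^ c` and not in `J ^ (c + 1)`; then the conjugates of powers of `z` act by
translations on `(ℚ + J) / J ^ (c + 1)`.
-/

set_option autoImplicit false

namespace Pool.Agent.Results.MP_b6f35e_al.TranslationEdges

open Pool.Agent.Y110.FJ (ClosedE)

/-- the stabilizer of the edge between `v` and `w`, as a subgroup of the stabilizer of `v` -/
def edge (G : Type) {V : Type} [Group G] [MulAction G V] (v w : V) :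
    Subgroup (MulAction.stabilizer G v) :=
  (MulAction.stabilizer G w).subgroupOf (MulAction.stabilizer G v)

/-- For every finite set of edges at `v`, the stabilizers of these edges act faithfully and by
translations in a rational representation of the stabilizer of `v` of finite degree. -/
def Translations (G : Type) {V : Type} [Group G] [MulAction G V] (T : SimpleGraph V) (v : V) :
    Prop :=
  ∀ N : Set V, N.Finite → (∀ w ∈ N, T.Adj v w) →
    ∃ (n : ℕ) (ρ : MulAction.stabilizer G v →* ((Fin n → ℚ) ≃ₗ[ℚ] (Fin n → ℚ))),
      ∀ w ∈ N, Q9.FJG.ActsByTranslations ρ (edge G v w)

/-- The stabilizers of the edges at `v` are finitely generated and embed in the quotient of the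
abelianization of the stabilizer of `v` by its torsion subgroup. -/
def Homological (G : Type) {V : Type} [Group G] [MulAction G V] (T : SimpleGraph V) (v : V) :
    Prop :=
  ∀ w : V, T.Adj v w → (edge G v w).FG ∧ ∀ x ∈ edge G v w, ∀ k : ℕ, 0 < k →
    x ^ k ∈ commutator (MulAction.stabilizer G v) → x = 1

/-- Every element of the stabilizer of an edge at `v` is conjugate in the stabilizer of `v` to a power
of one element `z`, and `z` is trivial or acts nontrivially in a representation of the stabilizer of
`v` by upper unitriangular rational matrices. -/
def OneElement (G : Type) {V : Type} [Group G] [MulAction G V] (T : SimpleGraph V) (v : V) :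
    Prop :=
  ∃ z : MulAction.stabilizer G v,
    (∀ w : V, T.Adj v w → ∀ x ∈ edge G v w,
      ∃ (h : MulAction.stabilizer G v) (k : ℤ), x = h * z ^ k * h⁻¹) ∧
    ∃ (n : ℕ) (τ : MulAction.stabilizer G v →* Matrix (Fin n) (Fin n) ℚ),
      (∀ (x : MulAction.stabilizer G v) (i j : Fin n), j ≤ i → τ x i j = if i = j then 1 else 0) ∧
      (τ z = 1 → z = 1)

/-- Let `C` be a class of groups with the closure properties `ClosedE C` which contains `GL_n(ℚ)` for
all `n`. Let `G` act without inversions on a tree, with all vertex stabilizers in `C`, so that every
vertex satisfies one of the conditions `Translations`, `Homological` and `OneElement`. Then `G` is in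
`C`. -/
theorem result (C : ∀ (G : Type) [Group G], Prop) (hC : ClosedE C)
    (hGL : ∀ n : ℕ, C (Matrix.GeneralLinearGroup (Fin n) ℚ))
    (G V : Type) [Group G] [MulAction G V] (T : SimpleGraph V) (hT : T.IsTree)
    (hadj : ∀ (g : G) (v w : V), T.Adj v w → T.Adj (g • v) (g • w))
    (hinv : ∀ (g : G) (v w : V), T.Adj v w → ¬ (g • v = w ∧ g • w = v))
    (hst : ∀ v : V, C (MulAction.stabilizer G v))
    (hv : ∀ v : V, Translations G T v ∨ Homological G T v ∨ OneElement G T v) : C G := by
  refine Q9.FJG.thmA hC hGL hT hadj hinv hst ?_
  intro v N hN hNa
  rcases hv v with h | h | ⟨z, hz1, n, τ, hτ, hτz⟩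
  · exact h N hN hNa
  · obtain ⟨n, ρ, h'⟩ := Q9.FJG.exists_delta (S := MulAction.stabilizer G v)
      ((fun w => edge G v w) '' N) (hN.image _) (by
        rintro _ ⟨w, hw, rfl⟩
        exact (h w (hNa w hw)).1) (by
        rintro _ ⟨w, hw, rfl⟩
        exact (h w (hNa w hw)).2)
    exact ⟨n, ρ, fun w hw => h' _ ⟨w, hw, rfl⟩⟩
  · obtain ⟨n', ρ, h'⟩ := Q9.FJG.one_element τ (Q9.FJG.uni_nilp τ hτ) z hτz
    exact ⟨n', ρ, fun w hw => h' _ (hz1 w (hNa w hw))⟩

end Pool.Agent.Results.MP_b6f35e_al.TranslationEdges
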